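import Pool.Agent.Helper66_PSS.Asm
import Pool.Agent.Helper49_PSS.BSR
import Pool.Agent.Helper86_PSS.SGX
import Pool.Agent.Helper44_PSS.SNL
import Pool.Agent.Helper49_PSS.SNW
import Pool.Agent.Helper10_PSS.RCT
import Pool.Agent.Helper25_PSS.LRN
import Pool.Agent.Helper21_PSS.RTV
import Pool.Agent.Helper56_PFE.TWL
import Pool.Agent.Helper3_PFE.AllR

/-!
# Squad PST, block GU: theorem (R) as a base case, without hypotheses

`bsr_ : BR.BsrStmt` (the base case), `atr_ : AtgStmt BR.Rtp` (the theorem for algebras).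
-/

noncomputable section

namespace Pool.Agent.PST.GU.H3

open Pool.Agent.PSS Pool.Agent.PSS.BR

theorem lrn_ : LrnStmt := BR.H25.lrn S5.H83.lcp PSS.H66.s5_lkc PFE.H3.rin_

theorem bsr_ : BsrStmt :=
  BR.H49.bsr Pool.Agent.Helper10.PSS.RCT.rct (PSS.H86.sgx PFE.H56.twl) (BR.H49.snw BR.H44.snl)
    lrn_ PSS.H66.s5_rdl PSS.H66.s5_lnw

theorem atr_ : AtgStmt Rtp := atg Rtp BR.H21.rtv PSS.All.stp bsr_

end Pool.Agent.PST.GU.H3
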