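import Pool.Agent.Helper3_PST.AsmU
import Pool.Agent.Helper3_PST.AsmR

/-!
# Squad PST, block GU: the union of (S) and (R), without hypotheses

`fvs_ : FvsStmt`: Alperin's weight conjecture (the alternating sum) for the blocks with an abelian defect
group `D` with `Cln` (theorem (A) + (S)) or `ClU` (theorem (R): `D = Y_1 × .. × Y_s × U`, `|Y_i| = ℓ`, `U` of rank at
most two).
-/

noncomputable section

namespace Pool.Agent.PST.GU.H3

theorem fvs_ : FvsStmt := fvs_of atr_ PSS.H66.sto_

end Pool.Agent.PST.GU.H3
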