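import Pool.Agent.PST.StmtsGV
import Pool.Agent.Helper68_PST.CLU

/-!
# Squad PST, block GV, row CLV: from the clean hypotheses to the class
-/

set_option autoImplicit false

open scoped BigOperators

noncomputable section

namespace Pool.Agent.PST.GU.H3

open Pool.Agent.Helper51_AWC Pool.Agent.Helper79_WRA Pool.Agent.PP Pool.Agent.PP.KF
open Pool.Agent.PP.K9 Pool.Agent.PP.K9.H97 Pool.Agent.PP.H75 Pool.Agent.PP.T3 Pool.Agent.PP.T2
open Pool.Agent.PP.TB (Zd Star iz cz)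
open Pool.Agent.PFD (Ei)
open Pool.Agent.PSS

attribute [local instance] Ideal.Quotient.field

theorem so_ne {G : Type} [Group G] {U V : Subgroup G} (hUV : U ≤ V) (hU : U ≠ ⊥) :
    U.subgroupOf V ≠ ⊥ := by
  intro h1
  apply hU
  rw [eq_bot_iff]
  intro u hu
  have h6 : (⟨u, hUV hu⟩ : V) ∈ U.subgroupOf V := Subgroup.mem_subgroupOf.2 hu
  rw [h1, Subgroup.mem_bot] at h6
  rw [Subgroup.mem_bot]
  exact congrArg Subtype.val h6

theorem clv (sry : SryStmt) (msu : MsuStmt) (lke : PFD.LkeStmt) (inx : K9.InxStmt) :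
    ClvStmt := by
  intro ℓ hℓ M _ hM G _ _ e V γ hL hV s Y U h
  have hab : ∀ a b : V, a * b = b * a := fun a b => Subtype.ext (hL.ab a a.2 b b.2)
  -- the order of `Ei`
  have hcop : ¬ ℓ ∣ Nat.card (Ei V γ) := by
    have h1 := (lke ℓ (FF M) G e V γ hL).1
    rw [← h1]
    have h2 := inx ℓ M hM G e hL.blk V hL.tp hL.ab γ hL.gam.supp hL.gam.blk hL.und
    have h3 : iz V V γ = (Subgroup.centralizer (V : Set G)).relIndex
        (Subgroup.normalizer (V : Set G) ⊓ stabF γ) := by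
      unfold iz
      rw [Subgroup.inf_relIndex_right]
      rfl
    rw [h3]
    exact h2
  -- stable subgroups
  have hst : ∀ Z : Subgroup G, (∀ t ∈ Tg V γ, ∀ z ∈ Z, t * z * t⁻¹ ∈ Z) →
      ∀ a ∈ Ei V γ, ∀ z ∈ Z.subgroupOf V, a z ∈ Z.subgroupOf V := by
    rintro Z hZ _ ⟨⟨t, htn⟩, ht, rfl⟩ z hz
    rw [Subgroup.mem_subgroupOf]
    exact hZ t (Subgroup.mem_subgroupOf.1 ht) z (Subgroup.mem_subgroupOf.1 hz)
  have hYV : ∀ i, Y i ≤ V := fun i => (le_iSup Y i).trans (le_sup_left.trans h.jn.le)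
  have hUV : U ≤ V := le_sup_right.trans h.jn.le
  have hPV : (⨆ i, Y i) ≤ V := le_sup_left.trans h.jn.le
  -- generators
  have hgen : ∀ i, ∃ y : V, y ∈ (Y i).subgroupOf V ∧ ∀ x ∈ (Y i).subgroupOf V, ∃ k : ℤ,
      x = y ^ k := by
    intro i
    obtain ⟨y, hy, hgen⟩ := h.cy i
    refine ⟨⟨y, hYV i hy⟩, Subgroup.mem_subgroupOf.2 hy, fun x hx => ?_⟩
    obtain ⟨k, hk⟩ := hgen x (Subgroup.mem_subgroupOf.1 hx)
    exact ⟨k, Subtype.ext (by rw [Subgroup.coe_zpow]; exact hk)⟩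
  -- `E` is commutative on the product of the cyclic factors
  have hcmP : ∀ a ∈ Ei V γ, ∀ b ∈ Ei V γ, ∀ v ∈ (⨆ i, Y i).subgroupOf V,
      a (b v) = b (a v) := by
    intro a ha b hb v hv
    obtain ⟨Z, hZ⟩ : ∃ Z : Subgroup V, ∀ v, v ∈ Z ↔ a (b v) = b (a v) :=
      ⟨MonoidHom.eqLocus (a * b : MulAut V).toMonoidHom (b * a : MulAut V).toMonoidHom,
        fun v => Iff.rfl⟩
    have h1 : (⨆ i, Y i) ≤ Z.map V.subtype := by
      refine iSup_le fun i => ?_
      intro x hx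
      refine ⟨⟨x, hYV i hx⟩, ?_, rfl⟩
      obtain ⟨y, hy, hg⟩ := hgen i
      obtain ⟨k, hk⟩ := hg ⟨x, hYV i hx⟩ (Subgroup.mem_subgroupOf.2 hx)
      obtain ⟨m, hm⟩ := hg _ (hst _ (h.sy i) a ha y hy)
      obtain ⟨n, hn⟩ := hg _ (hst _ (h.sy i) b hb y hy)
      have e1 : a (b y) = b (a y) := by
        rw [hm, hn, map_zpow, map_zpow, hm, hn, ← zpow_mul, ← zpow_mul, mul_comm]
      rw [SetLike.mem_coe, hZ, hk, map_zpow, map_zpow, map_zpow, map_zpow, e1]
    obtain ⟨w, hw, hwv⟩ := h1 (Subgroup.mem_subgroupOf.1 hv)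
    have h2 : w = v := Subtype.ext hwv
    rw [← h2]
    exact (hZ w).1 hw
  by_cases hU : U = ⊥
  · -- `V = P`
    have hP : (⨆ i, Y i) = V := by
      have h1 := h.jn
      rwa [hU, sup_bot_eq] at h1
    have hEc : ∀ a ∈ Ei V γ, ∀ b ∈ Ei V γ, ∀ v : V, a (b v) = b (a v) := by
      intro a ha b hb v
      refine hcmP a ha b hb v (Subgroup.mem_subgroupOf.2 ?_)
      rw [hP]
      exact v.2
    have hne : ∃ v : V, v ≠ 1 := by
      by_contra hc
      push Not at hc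
      apply hV
      rw [eq_bot_iff]
      intro x hx
      have h1 := hc ⟨x, hx⟩
      rw [Subgroup.mem_bot]
      exact congrArg Subtype.val h1
    obtain ⟨W', h1⟩ := msu V (Ei V γ) hne hEc
    refine ⟨W', Or.inl ⟨hab, ?_, W', ⊥, h1⟩⟩
    intro a ha b hb v
    rw [hEc a ha b hb v, mul_inv_cancel]
    exact one_mem W'
  obtain ⟨x, y, hxy⟩ := h.gn
  by_cases hP : (⨆ i, Y i) = ⊥
  · -- `V = U`
    have h2 : U = V := by
      have h3 := h.jn
      rwa [hP, bot_sup_eq] at h3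
    refine ⟨⊤, Or.inr (Or.inl ⟨rfl, ?_, ?_⟩)⟩
    · intro h4
      apply hV
      rw [eq_bot_iff]
      intro x hx
      have h5 : (⟨x, hx⟩ : V) ∈ (⊤ : Subgroup V) := trivial
      rw [h4, Subgroup.mem_bot] at h5
      rw [Subgroup.mem_bot]
      exact congrArg Subtype.val h5
    · refine GU.H68.r2_of (ℓ := ℓ) V.subtype V.subtype_injective x y ?_ hab hL.tp.1
      rw [V.range_subtype, ← h2, hxy]
  -- the series
  have hfr : ∀ i, (Y i).subgroupOf V ≠ ⊥ → ∀ a ∈ Ei V γ, (∀ y ∈ (Y i).subgroupOf V, a y = y) →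
      ∀ u ∈ U.subgroupOf V, u ≠ 1 → a u = u → ∀ x ∈ U.subgroupOf V, a x = x := by
    intro i hi
    rintro _ ⟨⟨t, htn⟩, ht, rfl⟩ hfix u hu hu1 hfu x hx
    have h0 : Y i ≠ ⊥ := by
      rintro h0
      apply hi
      rw [h0]
      exact Subgroup.bot_subgroupOf V
    have h7 : t * (u : G) * t⁻¹ = u := congrArg Subtype.val hfu
    have h8 : ∀ y ∈ Y i, t * y = y * t := by
      intro y hy
      have h9 : t * y * t⁻¹ = y :=
        congrArg Subtype.val (hfix ⟨y, hYV i hy⟩ (Subgroup.mem_subgroupOf.2 hy))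
      exact mul_inv_eq_iff_eq_mul.1 h9
    have h10 := h.fr i h0 t (Subgroup.mem_subgroupOf.1 ht) h8 u (Subgroup.mem_subgroupOf.1 hu)
      (fun h0 => hu1 (Subtype.ext h0)) (mul_inv_eq_iff_eq_mul.1 h7)
    apply Subtype.ext
    show t * (x : G) * t⁻¹ = x
    have h11 : (x : G) * t = t * x :=
      (Subgroup.mem_centralizer_iff.1 h10) x (Subgroup.mem_subgroupOf.1 hx)
    rw [← h11, mul_inv_cancel_right]
  have hD : ∀ n : ℕ, n ≤ s →
      (∀ a ∈ Ei V γ, ∀ v ∈ (⨆ j : Fin s, ⨆ (_ : (j : ℕ) < n), Y j).subgroupOf V,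
        a v ∈ (⨆ j : Fin s, ⨆ (_ : (j : ℕ) < n), Y j).subgroupOf V) ∧
      Sr ℓ (Ei V γ) (U.subgroupOf V) ⊥
        ((⨆ j : Fin s, ⨆ (_ : (j : ℕ) < n), Y j).subgroupOf V) := by
    intro n
    induction n with
    | zero =>
      intro _
      have h0 : (⨆ j : Fin s, ⨆ (_ : (j : ℕ) < 0), Y j) = ⊥ := by
        rw [eq_bot_iff]
        refine iSup_le fun j => iSup_le fun hj => ?_
        omega
      rw [h0, Subgroup.bot_subgroupOf]
      refine ⟨?_, Relation.ReflTransGen.refl⟩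
      intro a _ v hv
      rw [Subgroup.mem_bot] at hv ⊢
      rw [hv, map_one]
    | succ n ih =>
      intro hn
      have h0 : (⨆ j : Fin s, ⨆ (_ : (j : ℕ) < n + 1), Y j) =
          (⨆ j : Fin s, ⨆ (_ : (j : ℕ) < n), Y j) ⊔ Y ⟨n, hn⟩ := by
        apply le_antisymm
        · refine iSup_le fun j => iSup_le fun hj => ?_
          rcases Nat.lt_or_ge (j : ℕ) n with h1 | h1
          · exact (le_iSup₂ (f := fun (j : Fin s) (_ : (j : ℕ) < n) => Y j) j h1).trans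
              le_sup_left
          · have h2 : j = ⟨n, hn⟩ := Fin.ext (by show (j : ℕ) = n; omega)
            rw [h2]
            exact le_sup_right
        · refine sup_le ?_ ?_
          · refine iSup_le fun j => iSup_le fun hj => ?_
            exact le_iSup₂_of_le j (Nat.lt_succ_of_lt hj) le_rfl
          · exact le_iSup₂_of_le (⟨n, hn⟩ : Fin s) (Nat.lt_succ_self n) le_rfl
      have hle : (⨆ j : Fin s, ⨆ (_ : (j : ℕ) < n), Y j) ≤ V :=
        iSup_le fun j => iSup_le fun _ => hYV j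
      obtain ⟨ih1, ih2⟩ := ih (by omega)
      rw [h0, Subgroup.subgroupOf_sup hle (hYV _)]
      have hdis : (⨆ j : Fin s, ⨆ (_ : (j : ℕ) < n), Y j).subgroupOf V ⊓
          (Y ⟨n, hn⟩).subgroupOf V = ⊥ := by
        rw [eq_bot_iff]
        rintro ⟨x, hxV⟩ ⟨hx1, hx2⟩
        have h3 : x ∈ Y ⟨n, hn⟩ ⊓ (⨆ j, ⨆ (_ : j < (⟨n, hn⟩ : Fin s)), Y j) :=
          ⟨Subgroup.mem_subgroupOf.1 hx2, Subgroup.mem_subgroupOf.1 hx1⟩
        rw [h.dy, Subgroup.mem_bot] at h3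
        rw [Subgroup.mem_bot]
        exact Subtype.ext h3
      let _ : CommGroup V := { (inferInstance : Group V) with mul_comm := hab }
      refine ⟨?_, Relation.ReflTransGen.trans ih2 ?_⟩
      · intro a ha v hv
        obtain ⟨c, hc, z, hz, rfl⟩ := Subgroup.mem_sup.1 hv
        rw [map_mul]
        exact Subgroup.mul_mem_sup (ih1 a ha c hc) (hst _ (h.sy _) a ha z hz)
      · obtain ⟨y, hy, hg⟩ := hgen ⟨n, hn⟩
        exact sry ℓ V (Ei V γ) (U.subgroupOf V) _ _ hℓ.out hL.tp.1 hcop ih1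
          (hst _ (h.sy _)) ⟨y, hy, hg⟩ hdis (hfr _)
  obtain ⟨hD1, hD2⟩ := hD s le_rfl
  have hall : (⨆ j : Fin s, ⨆ (_ : (j : ℕ) < s), Y j) = ⨆ i, Y i := by
    apply le_antisymm
    · exact iSup_le fun j => iSup_le fun _ => le_iSup Y j
    · refine iSup_le fun j => ?_
      exact le_iSup₂_of_le j j.2 le_rfl
  rw [hall] at hD1 hD2
  rcases Relation.ReflTransGen.cases_head hD2 with h0 | ⟨W₀, hW1, hW2⟩
  · exact absurd h0.symm (so_ne hPV hP)
  refine ⟨W₀, Or.inr (Or.inr ⟨(⨆ i, Y i).subgroupOf V, U.subgroupOf V, ?_⟩)⟩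
  refine ⟨hab, hcmP, hW1, hW2, hst U h.su, so_ne hUV hU, ?_, ?_, ?_⟩
  · rw [eq_bot_iff]
    rintro ⟨z, hzV⟩ ⟨hz1, hz2⟩
    have h3 : z ∈ (⨆ i, Y i) ⊓ U :=
      ⟨Subgroup.mem_subgroupOf.1 hz1, Subgroup.mem_subgroupOf.1 hz2⟩
    rw [h.du, Subgroup.mem_bot] at h3
    rw [Subgroup.mem_bot]
    exact Subtype.ext h3
  · rw [← Subgroup.subgroupOf_sup hPV hUV, h.jn, Subgroup.subgroupOf_self]
  · refine GU.H68.r2_of (ℓ := ℓ) (V.subtype.comp (U.subgroupOf V).subtype)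
      (V.subtype_injective.comp (U.subgroupOf V).subtype_injective) x y ?_ ?_
      (hL.tp.1.to_subgroup _)
    · rw [MonoidHom.range_comp, Subgroup.range_subtype, Subgroup.subgroupOf_map_subtype,
        inf_eq_left.mpr hUV, hxy]
    · intro a b
      exact Subtype.ext (hab a b)

end Pool.Agent.PST.GU.H3
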