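import Pool.Agent.Helper3_PST.AsmV
import Pool.Agent.Helper3_PST.CLV

/-!
# Squad PST, block GV: the union of (S++) and (R), from the step `StqStmt`
-/

noncomputable section

namespace Pool.Agent.PST.GU.H3

open Pool.Agent.PP Pool.Agent.PSS

theorem clv_ : ClvStmt := clv sry GS.msu_ PFD.H6.lke K9.H34.inx

/-- the final theorem for the union of (S++) and (R), from the step -/
theorem fvx_of (stq : StqStmt) : FvxStmt := fvx_clv clv_ stq

end Pool.Agent.PST.GU.H3
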