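import Pool.Agent.PST.StmtsNW
import Pool.Agent.Helper20_PSS.FPX
import Pool.Agent.Helper44_PSS.NAK
import Pool.Agent.Helper6_PSS.BKI
import Pool.Agent.PFC.B4.Key

/-!
# Squad PST, row NCN (helper3): an idempotent of `B(Q)` which vanishes in `B(QW)` is `0`
-/

open scoped BigOperators TensorProduct

noncomputable section

namespace Pool.Agent.PST.H3

open Pool.Agent.PFC (tw IsTv)
open Pool.Agent.PFD.D2b (FrR)
open Pool.Agent.PSS
open Pool.Agent.PSS.S0.H6 (cw_apply cw_mul fx_mono fx_mul)

section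

variable {F V A B : Type} [Field F] [CommGroup V] [Fintype V] [Ring A] [Algebra F A] [Ring B]
  [Algebra F B]

/-- the left multiplication by the elements of `W` -/
def lm (F : Type) [Field F] [Algebra F B] (β : V →* B) (W : Subgroup V) : W →* (B →ₗ[F] B) where
  toFun := fun w => LinearMap.mulLeft F (β w)
  map_one' := by
    ext b
    simp
  map_mul' := by
    intro u v
    ext b
    simp [mul_assoc]

theorem lm_apply (β : V →* B) (W : Subgroup V) (w : W) (b : B) : lm F β W w b = β w * b := rfl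

/-- the span of the `(w - 1) d`, `d ∈ M` -/
def J (β : V →* B) (W : Subgroup V) (M : Submodule F B) : Submodule F B :=
  Submodule.span F {x : B | ∃ v, ∃ d ∈ M, x = lm F β W v d - d}

variable {α : V →* A} {W : Subgroup V} (N : IsNW F α W B)

theorem comm_w {ε : MulAut W} {a : A} (ha : a ∈ FxR (bw F α) (twW W ε)) (w : W) :
    N.β ε a * N.nwh w = N.nwh (ε w) * N.β ε a := by
  have h1 := N.mul ε 1 a ha (α (w : V)) (al_mem_tw (w : V) W)
  have h2 := N.mul 1 ε (α (ε w)) (al_mem_tw _ W) a ha
  rw [mul_one] at h1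
  rw [one_mul] at h2
  rw [N.nwh_apply, N.nwh_apply, ← h1, ← h2]
  rw [mem_tw] at ha
  rw [ha w]

/-- decomposition of an element of the centraliser of `Q` -/
theorem dec (ncg : NcgStmt) (Q : Subgroup V) {x : B} (hx : x ∈ FxR (cw F N.nwh) Q) :
    ∃ (ι : Type) (_ : Fintype ι) (y : ι → B) (s : ι → MulAut W),
      (∀ k, y k ∈ FxR (cw F N.nwh) Q) ∧ (∀ k, ∀ w : W, y k * N.nwh w = N.nwh (s k w) * y k) ∧
      ∑ k, y k = x := by
  classical
  obtain ⟨f, h1, h2, h3⟩ := ncg F V A B α W N Q x hx
  have : Finite (MulAut W) := Finite.of_injective (fun e : MulAut W => (e : W → W))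
    DFunLike.coe_injective
  have : Fintype (MulAut W) := Fintype.ofFinite _
  refine ⟨MulAut W, inferInstance, fun ε => N.β ε (f ε), fun ε => ε, h2,
    fun ε w => comm_w N (h1 ε) w, ?_⟩
  rw [← h3, finsum_eq_sum_of_fintype]

/-- `D * J(M) ≤ J(M)` -/
theorem mul_J (ncg : NcgStmt) (Q : Subgroup V) (M : Submodule F B)
    (hM : ∀ a ∈ FxR (cw F N.nwh) Q, ∀ m ∈ M, a * m ∈ M) {a z : B}
    (ha : a ∈ FxR (cw F N.nwh) Q) (hz : z ∈ J N.nwh W M) : a * z ∈ J N.nwh W M := by
  obtain ⟨ι, _, y, s, h1, h2, h3⟩ := dec N ncg Q ha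
  unfold J at hz
  induction hz using Submodule.span_induction with
  | mem z hz =>
    obtain ⟨w, d, hd, rfl⟩ := hz
    rw [← h3, Finset.sum_mul]
    refine Submodule.sum_mem _ fun k _ => Submodule.subset_span ⟨s k w, y k * d, hM _ (h1 k) _ hd, ?_⟩
    rw [lm_apply, lm_apply, mul_sub, ← mul_assoc, h2, mul_assoc]
  | zero =>
    rw [mul_zero]
    exact Submodule.zero_mem _
  | add u v _ _ hu hv =>
    rw [mul_add]
    exact Submodule.add_mem _ hu hv
  | smul r u _ hu =>
    rw [mul_smul_comm]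
    exact Submodule.smul_mem _ _ hu

theorem cw_sub (ncg : NcgStmt) (Q : Subgroup V) {y : B} (hy : y ∈ FxR (cw F N.nwh) Q) (w : W) :
    cw F N.nwh w y - y ∈ J N.nwh W (FxR (cw F N.nwh) Q) := by
  obtain ⟨ι, _, y', s, h1, h2, h3⟩ := dec N ncg Q hy
  rw [← h3, map_sum, ← Finset.sum_sub_distrib]
  refine Submodule.sum_mem _ fun k _ => Submodule.subset_span ⟨w * s k w⁻¹, y' k, h1 k, ?_⟩
  congr 1
  have h4 := h2 k w⁻¹
  rw [cw_apply, lm_apply]
  have e : (((w⁻¹ : W) : V)) = (w : V)⁻¹ := rfl
  rw [e] at h4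
  rw [h4, ← mul_assoc, ← map_mul]
  rfl

/-- the elements of the Brauer kernel of `Q ⊔ W` -/
theorem bk_le (ncg : NcgStmt) (ℓ : ℕ) [Fact ℓ.Prime] [CharP F ℓ] (hp : IsPGroup ℓ V)
    (Q : Subgroup V) :
    BKR (cw F N.nwh) (Q ⊔ W) ≤ J N.nwh W (FxR (cw F N.nwh) Q) ⊔ BKR (cw F N.nwh) Q := by
  classical
  apply Submodule.span_le.2
  rintro n ⟨T, S, y, hT, hS, hy, rfl⟩
  by_cases hQT : Q ≤ T
  · -- `Q ≤ T`
    apply Submodule.mem_sup_left
    have hyQ : y ∈ FxR (cw F N.nwh) Q := fx_mono N.nwh hQT hy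
    have h1 : ∀ s ∈ S, cw F N.nwh s y - y ∈ J N.nwh W (FxR (cw F N.nwh) Q) := by
      intro s hs
      obtain ⟨q, hq, w, hw, rfl⟩ := Subgroup.mem_sup.1 (hS.1 s hs)
      have h2 := cw_sub N ncg Q hyQ ⟨w, hw⟩
      have h3 : cw F N.nwh (q * w) y = cw F N.nwh w y := by
        rw [mul_comm, map_mul]
        change cw F N.nwh w (cw F N.nwh q y) = _
        rw [hyQ q hq]
      rw [h3]
      exact h2
    have h4 : ∑ s ∈ S, cw F N.nwh s y = ∑ s ∈ S, (cw F N.nwh s y - y) := by
      rw [Finset.sum_sub_distrib, Finset.sum_const]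
      have hcard := Pool.Agent.PFC.card_tv T (Q ⊔ W) hT.le S hS
      have hP : IsPGroup ℓ (Q ⊔ W : Subgroup V) := hp.to_subgroup _
      obtain ⟨k, hk⟩ := (IsPGroup.iff_card).1 hP
      have hdiv : S.card ∣ ℓ ^ k := ⟨_, by rw [← hk]; exact hcard.symm⟩
      obtain ⟨j, -, hj⟩ := (Nat.dvd_prime_pow (Fact.out : ℓ.Prime)).1 hdiv
      rcases Nat.eq_zero_or_pos j with h0 | h0
      · exfalso
        rw [h0, pow_zero] at hj
        rw [hj, one_mul] at hcard
        exact hT.ne (Subgroup.eq_of_le_of_card_ge hT.le hcard.ge)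
      · have h5 : (S.card : F) = 0 := by
          rw [hj, Nat.cast_pow, CharP.cast_eq_zero, zero_pow h0.ne']
        rw [← Nat.cast_smul_eq_nsmul F, h5, zero_smul, sub_zero]
    rw [h4]
    exact Submodule.sum_mem _ h1
  · -- `Q` is not contained in `T`
    apply Submodule.mem_sup_right
    have hfix : ∀ u v : V, (QuotientGroup.mk u : V ⧸ T) = QuotientGroup.mk v →
        cw F N.nwh u y = cw F N.nwh v y := by
      intro u v huv
      have h1 : u⁻¹ * v ∈ T := QuotientGroup.eq.1 huv
      have h2 : v = u * (u⁻¹ * v) := by group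
      rw [h2, map_mul]
      change _ = cw F N.nwh u (cw F N.nwh (u⁻¹ * v) y)
      rw [hy _ h1]
    let g : V ⧸ T → B := fun κ =>
      if κ.out ∈ Q ⊔ W then cw F N.nwh κ.out y else 0
    have hout : ∀ u : V, (Quotient.out (QuotientGroup.mk u : V ⧸ T) : V) ∈ Q ⊔ W ↔
        u ∈ Q ⊔ W := by
      intro u
      have h1 : (QuotientGroup.mk (Quotient.out (QuotientGroup.mk u : V ⧸ T)) : V ⧸ T) =
        QuotientGroup.mk u := Quotient.out_eq _
      have h2 := QuotientGroup.eq.1 h1
      have h3 := hT.le h2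
      constructor
      · intro h4
        have := (Q ⊔ W).mul_mem h4 h3
        rwa [mul_inv_cancel_left] at this
      · intro h4
        have := (Q ⊔ W).mul_mem h4 ((Q ⊔ W).inv_mem h3)
        rwa [mul_inv_rev, inv_inv, mul_inv_cancel_left] at this
    have hg : ∀ u : V, g (QuotientGroup.mk u) = if u ∈ Q ⊔ W then cw F N.nwh u y else 0 := by
      intro u
      change (if (Quotient.out (QuotientGroup.mk u : V ⧸ T) : V) ∈ Q ⊔ W then _ else _) = _
      rw [if_congr (hout u) rfl rfl]
      split_ifs with h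
      · exact hfix _ _ (Quotient.out_eq _)
      · rfl
    have hF := Pool.Agent.PSS.H20.fpx F V B (V ⧸ T) (cw F N.nwh) Q g ∅ ?_ ?_
    · rw [Finset.sum_empty, sub_zero] at hF
      have h6 : ∑ κ, g κ = ∑ s ∈ S, cw F N.nwh s y := by
        symm
        have hinj : Set.InjOn (fun s : V => (QuotientGroup.mk s : V ⧸ T)) S := by
          intro s hs t ht hst
          obtain ⟨r, hr, hu⟩ := hS.2 t (hS.1 t ht)
          rw [hu s ⟨hs, QuotientGroup.eq.1 hst⟩,
            hu t ⟨ht, by rw [inv_mul_cancel]; exact T.one_mem⟩]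
        rw [← Finset.sum_subset (Finset.subset_univ (S.image fun s : V => (QuotientGroup.mk s : V ⧸ T)))]
        · rw [Finset.sum_image hinj]
          refine Finset.sum_congr rfl fun s hs => ?_
          rw [hg, if_pos (hS.1 s hs)]
        · intro κ _ hκ
          obtain ⟨u, rfl⟩ := QuotientGroup.mk_surjective κ
          rw [hg, if_neg]
          intro hu
          obtain ⟨s, ⟨hs, hs'⟩, _⟩ := hS.2 u hu
          exact hκ (Finset.mem_image.2 ⟨s, hs, QuotientGroup.eq.2 hs'⟩)
      rw [← h6]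
      exact hF
    · intro q hq κ
      obtain ⟨u, rfl⟩ := QuotientGroup.mk_surjective κ
      change g (QuotientGroup.mk (q * u)) = _
      rw [hg, hg]
      have h7 : q * u ∈ Q ⊔ W ↔ u ∈ Q ⊔ W :=
        (Q ⊔ W).mul_mem_cancel_left ((le_sup_left : Q ≤ Q ⊔ W) hq)
      rw [if_congr h7 rfl rfl]
      split_ifs
      · rw [map_mul]
        rfl
      · rw [map_zero]
    · intro κ
      constructor
      · intro h
        exact absurd h (Finset.notMem_empty κ)
      · intro h
        exfalso
        apply hQT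
        intro q hq
        obtain ⟨u, rfl⟩ := QuotientGroup.mk_surjective κ
        have h8 : (QuotientGroup.mk (q * u) : V ⧸ T) = QuotientGroup.mk u := h q hq
        have h9 := QuotientGroup.eq.1 h8
        have e : (q * u)⁻¹ * u = q⁻¹ := by
          rw [mul_inv_rev, mul_comm u⁻¹, mul_assoc, inv_mul_cancel, mul_one]
        rw [e] at h9
        exact (inv_mem_iff).1 h9

end

theorem ncn (ncg : NcgStmt) : NcnStmt := by
  intro ℓ _ F V A B _ _ _ _ _ _ _ _ α W Q N x hp hx hxx hxP
  classical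
  have bki := Pool.Agent.PSS.S0.H6.bki
  have hJK := bk_le N ncg ℓ hp Q hxP
  obtain ⟨j, hj, k, hk, hjk⟩ := Submodule.mem_sup.1 hJK
  -- `D x D + K`
  let X : Submodule F B := Submodule.span F {z : B | ∃ a ∈ FxR (cw F N.nwh) Q,
    ∃ b ∈ FxR (cw F N.nwh) Q, z = a * x * b}
  let D1 : Submodule F B := X ⊔ BKR (cw F N.nwh) Q
  have hKL : ∀ a ∈ FxR (cw F N.nwh) Q, ∀ m ∈ BKR (cw F N.nwh) Q, a * m ∈ BKR (cw F N.nwh) Q :=
    fun a ha m hm => (bki F V B N.nwh Q a ha m hm).1
  have hKR : ∀ a ∈ FxR (cw F N.nwh) Q, ∀ m ∈ BKR (cw F N.nwh) Q, m * a ∈ BKR (cw F N.nwh) Q :=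
    fun a ha m hm => (bki F V B N.nwh Q a ha m hm).2
  have hXL : ∀ a ∈ FxR (cw F N.nwh) Q, ∀ m ∈ X, a * m ∈ X := by
    intro a ha m hm
    induction hm using Submodule.span_induction with
    | mem z hz =>
      obtain ⟨c, hc, b, hb, rfl⟩ := hz
      exact Submodule.subset_span ⟨a * c, fx_mul N.nwh ha hc, b, hb, by
        simp only [mul_assoc]⟩
    | zero =>
      rw [mul_zero]
      exact Submodule.zero_mem _
    | add u v _ _ hu hv =>
      rw [mul_add]
      exact Submodule.add_mem _ hu hv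
    | smul r u _ hu =>
      rw [mul_smul_comm]
      exact Submodule.smul_mem _ _ hu
  have hDL : ∀ a ∈ FxR (cw F N.nwh) Q, ∀ m ∈ D1, a * m ∈ D1 := by
    intro a ha m hm
    obtain ⟨u, hu, v, hv, rfl⟩ := Submodule.mem_sup.1 hm
    rw [mul_add]
    exact Submodule.add_mem _ (Submodule.mem_sup_left (hXL a ha u hu))
      (Submodule.mem_sup_right (hKL a ha v hv))
  have hw : ∀ w : W, N.nwh (w : V) ∈ FxR (cw F N.nwh) Q := fun w => al_mem_cw _ Q
  have hres : D1 ≤ BKR (cw F N.nwh) Q := by
    refine Pool.Agent.PSS.S5.H44.nak ℓ F W B (lm F N.nwh W) D1 (BKR (cw F N.nwh) Q)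
      (hp.to_subgroup W) ?_ ?_ ?_
    · intro w m hm
      exact hDL _ (hw w) m hm
    · intro w m hm
      exact hKL _ (hw w) m hm
    · intro m hm
      have hle : D1 ≤ BKR (cw F N.nwh) Q ⊔ J N.nwh W D1 := by
        apply sup_le _ le_sup_left
        apply Submodule.span_le.2
        rintro z ⟨a, ha, b, hb, rfl⟩
        have e1 : a * x * b = a * (-(x * x - x)) * b + (a * k * (x * b) + a * (j * (x * b))) := by
          have : a * (x * x) * b = a * k * (x * b) + a * (j * (x * b)) := by
            conv_lhs => rw [show x * x = (j + k) * x by rw [hjk]]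
            simp only [mul_add, add_mul, mul_assoc]
            exact add_comm _ _
          rw [← this]
          simp only [mul_sub, sub_mul, mul_neg, neg_mul]
          abel
        rw [e1]
        have hxb : x * b ∈ FxR (cw F N.nwh) Q := fx_mul N.nwh hx hb
        refine Submodule.add_mem _ (Submodule.mem_sup_left ?_) (Submodule.add_mem _
          (Submodule.mem_sup_left ?_) (Submodule.mem_sup_right ?_))
        · exact hKR b hb _ (hKL a ha _ (Submodule.neg_mem _ hxx))
        · exact hKR _ hxb _ (hKL a ha _ hk)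
        · apply mul_J N ncg Q D1 hDL ha
          have hj' := hj
          unfold J at hj'
          clear e1 hjk hj
          induction hj' using Submodule.span_induction with
          | mem z hz =>
            obtain ⟨w, d, hd, rfl⟩ := hz
            refine Submodule.subset_span ⟨w, d * (x * b), ?_, ?_⟩
            · exact Submodule.mem_sup_left (Submodule.subset_span ⟨d, hd, b, hb, by
                rw [mul_assoc]⟩)
            · rw [sub_mul, lm_apply, lm_apply, mul_assoc]
          | zero =>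
            rw [zero_mul]
            exact Submodule.zero_mem _
          | add u v _ _ hu hv =>
            rw [add_mul]
            exact Submodule.add_mem _ hu hv
          | smul r u _ hu =>
            rw [smul_mul_assoc]
            exact Submodule.smul_mem _ _ hu
      obtain ⟨m', hm', n', hn', hmn⟩ := Submodule.mem_sup.1 (hle hm)
      refine ⟨m', hm', ?_⟩
      rw [← hmn, add_sub_cancel_left]
      exact hn'
  apply hres
  apply Submodule.mem_sup_left
  refine Submodule.subset_span ⟨1, ?_, 1, ?_, by rw [one_mul, mul_one]⟩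
  · rw [mem_cw]
    intro q _
    rw [mul_one, one_mul]
  · rw [mem_cw]
    intro q _
    rw [mul_one, one_mul]

end Pool.Agent.PST.H3
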