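import Pool.Agent.PST.AsmET
import Pool.Agent.PST.AllT
import Pool.Agent.Helper66_PSS.AsmS5
import Pool.Agent.Helper3_PST.AllV

/-!
# Squad PST: the final theorem without hypotheses
-/

noncomputable section

namespace Pool.Agent.PST.GU.H3

open Pool.Agent.PP Pool.Agent.PSS

theorem etc_ : ET.EtcStmt :=
  ETA.etc_of Pool.Agent.PSS.H66.s5_pcx Pool.Agent.PSS.H66.s5_bpt Pool.Agent.PSS.H66.s5_fit
    Pool.Agent.PSS.H66.s5_bor Pool.Agent.PSS.H66.s5_rbk Pool.Agent.PSS.H66.s5_coe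
    Pool.Agent.PSS.H66.s5_clj Pool.Agent.PSS.S5.H83.lcp Pool.Agent.PSS.H66.s5_lkc

theorem stq_ : StqStmt := Pool.Agent.PST.All.stq_ etc_

/-- the union of (S++) and (R) -/
theorem fvx_ : FvxStmt := fvx_of stq_

end Pool.Agent.PST.GU.H3
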