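import Pool.Agent.PST.StmtsGU
import Pool.Agent.Helper41_AT3.T3A
import Pool.Agent.Helper11_PFD.LEQ

/-!
# PST, block GU, row LET: the number of modular characters for a terminal class
-/

open scoped BigOperators

noncomputable section

namespace Pool.Agent.PST.GU.H3

open Pool.Agent.Helper51_AWC Pool.Agent.Helper79_WRA Pool.Agent.PP Pool.Agent.PP.KF
open Pool.Agent.PP.K9 Pool.Agent.PP.K9.H97 Pool.Agent.PP.H75 Pool.Agent.PP.T3 Pool.Agent.PP.T2
open Pool.Agent.PFD (Ei)
open Pool.Agent.PSS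

attribute [local instance] Ideal.Quotient.field

theorem let_ (qrx : QrxStmt) (qrj : QrjStmt) (chr : PFD.ChrStmt) (yad : PFD.YadStmt)
    (bnr : PFD.BnrStmt) (lcj : T3.LcjStmt) (lbr : K9.LbrStmt) : LetStmt := by
  intro L hAdm hMn ℓ hℓ M _ hM G _ _ e V γ hL hc
  have hA : AdT ℓ L := hAdm ℓ Fact.out
  have hF : GoodF ℓ (FF M) := H50.fld ℓ Fact.out M hM
  by_cases hV : V = ⊥
  · have h1 := (lbr ℓ (FF M) hF G e hL.blk.1 V (Subgroup.normalizer (V : Set G)) hL.tp.pg
      Subgroup.le_normalizer le_rfl).1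
    have hN : Subgroup.normalizer (V : Set G) = ⊤ := by
      have hnV : V.Normal := by
        rw [hV]
        exact Subgroup.normal_bot
      exact Subgroup.normalizer_eq_top_iff.2 hnV
    have h2 : ln e = lnum (Subgroup.normalizer (V : Set G)) e := by
      rw [hN]
      exact (H35.lnum_top e).symm
    rw [h2, h1]
    rfl
  have hk : (MonoidHom.id G).ker = ⊥ := (MonoidHom.ker_eq_bot_iff _).2 fun _ _ h => h
  have hK : (MonoidHom.id G).ker ≤ V := by
    rw [hk]
    exact bot_le
  have hKV : (MonoidHom.id G).ker ≠ V := by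
    rw [hk]
    exact fun h => hV h.symm
  have h0 := hMn ℓ M hM G e V γ hL hc G (MonoidHom.id G) (fun x => ⟨x, rfl⟩) hK hKV
  have hY : ∀ R : Subgroup G, IsPGroup ℓ R → (MonoidHom.id G).ker ≤ R →
      (MonoidHom.id G).ker ≠ R → Gd e R → Nat.card R < Nat.card V → YQ ℓ e R = 0 := by
    intro R hR _ _ _ hRV
    have hfid : IsIdem (fun t : Subgroup.normalizer (R : Set G) => br R e t) :=
      (H20.brm ℓ (FF M) hF G R (Subgroup.normalizer (R : Set G)) hR
        (Subgroup.centralizer_le_normalizer _) le_rfl).2.2 e hL.blk.1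
    unfold YQ
    refine yad ℓ (FF M) hF _ _ _ (QuotientGroup.mk'_surjective _) _ hfid ?_
    intro c hc1 hc2
    obtain ⟨g, hg, hL1⟩ := bnr ℓ M hM G e V γ hL R hR c hc1 hc2
    have hL' : Ld ℓ e (conjS g V) (cj g γ) := (lcj ℓ (FF M) hF G e V γ hL g).1
    have hCN : Subgroup.centralizer ((conjS g V : Subgroup G) : Set G) ≤
        Subgroup.normalizer (R : Set G) :=
      (Subgroup.centralizer_le hg).trans (Subgroup.centralizer_le_normalizer _)
    have hVN : conjS g V ≤ Subgroup.normalizer (R : Set G) := by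
      intro x hx
      apply hCN
      rw [Subgroup.mem_centralizer_iff]
      intro y hy
      exact hL'.ab y hy x hx
    obtain ⟨π₁, -, hQ₁⟩ := qrj (FF M) G V γ g
    obtain ⟨π₂, -, hQ₂⟩ := qrx ℓ (FF M) G e _ _ hL' _ hCN
    have hS1 := hA.iso _ _ _ _ π₂ hQ₂ (hA.iso _ _ _ _ π₁ hQ₁ hc)
    have hRN : R ≤ Subgroup.normalizer (R : Set G) := Subgroup.le_normalizer
    have hcR : Nat.card (R.subgroupOf (Subgroup.normalizer (R : Set G))) = Nat.card R :=
      Nat.card_congr (Subgroup.subgroupOfEquivOfLe hRN).toEquiv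
    refine hMn ℓ M hM _ c _ _ hL1 hS1 _ _ (QuotientGroup.mk'_surjective _) ?_ ?_
    · rw [QuotientGroup.ker_mk']
      intro x hx
      exact Subgroup.mem_subgroupOf.2 (hg (Subgroup.mem_subgroupOf.1 hx))
    · rw [QuotientGroup.ker_mk']
      intro h
      have h1 : Nat.card ((conjS g V).subgroupOf (Subgroup.normalizer (R : Set G))) =
          Nat.card V := by
        rw [Nat.card_congr (Subgroup.subgroupOfEquivOfLe hVN).toEquiv,
          Pool.Agent.Helper51_AWC.card_conjS]
      rw [← h, hcR] at h1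
      omega
  rw [chr ℓ M hM G e hL.blk V hL.tp G (MonoidHom.id G) (fun x => ⟨x, rfl⟩) hK hKV hY] at h0
  have hG : (Nat.card G : ℤ) ≠ 0 := by exact_mod_cast (Nat.card_pos (α := G)).ne'
  rcases mul_eq_zero.1 h0 with h | h
  · exact absurd h hG
  · exact_mod_cast sub_eq_zero.1 h

end Pool.Agent.PST.GU.H3
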