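import Pool.Agent.PST.StmtsGU
import Pool.Agent.Helper11_PSS.LEN

/-!
# PST, block GU, row STT: the numbers of ordinary characters for a terminal class
-/

open scoped BigOperators

noncomputable section

namespace Pool.Agent.PST.GU.H3

open Pool.Agent.Helper51_AWC Pool.Agent.Helper79_WRA Pool.Agent.PP Pool.Agent.PP.KF
open Pool.Agent.PP.K9 Pool.Agent.PP.K9.H97 Pool.Agent.PP.H75 Pool.Agent.PP.T3 Pool.Agent.PP.T2
open Pool.Agent.PP.TB (Zd Star iz cz)
open Pool.Agent.PFD (Ei KsmStmt LntStmt LkeStmt)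
open Pool.Agent.PSS
open Pool.Agent.PSS.H11 (cen_le_Cu)

attribute [local instance] Ideal.Quotient.field

theorem tg_le {F G : Type} [Group G] {V : Subgroup G} {γ : G → F} :
    Tg V γ ≤ Subgroup.normalizer (V : Set G) := inf_le_left

theorem stt (qrx : QrxStmt) (frt : FrtStmt) (ltx : LtxStmt) (izx : IzxStmt) (ksm : KsmStmt)
    (lsb : T3.LsbStmt) (sta : TW.StaStmt) : SttStmt := by
  intro L hAdm hLet ℓ hℓ M _ hM
  have hA : AdT ℓ L := hAdm ℓ hℓ.out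
  -- the local blocks
  have claim : ∀ (H : Type) [Group H] [Finite H] (e : H → FF M) (V : Subgroup H) (γ : H → FF M),
      Ld ℓ e V γ → L ℓ V (Ei V γ) → ∀ v ∈ V,
      ∀ b : H → FF M, Lc e V γ v b → ln (fun t : Cu v => b t) = lnum (Tg V γ ⊓ Cu v) γ := by
    intro H _ _ e V γ hL hc v hv b hb
    obtain ⟨m1, -⟩ := lsb ℓ M hM H e V γ hL v hv b hb
    obtain ⟨π, -, hq⟩ := qrx ℓ (FF M) H e V γ hL (Cu v) (cen_le_Cu hv)
    have h3 := hA.iso V _ (Ei V γ) _ π hq hc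
    rw [hLet ℓ M hM (Cu v) _ _ _ m1 h3, frt ℓ M hM (Cu v) _ _ _ m1]
    exact (ltx ℓ (FF M) H e V γ hL (Cu v) (cen_le_Cu hv)).1
  intro G _ _ e V γ hL W hWV hc c hLc
  obtain ⟨hW, -, hc⟩ := hc
  have hWV' : W = V := le_antisymm hWV (by
    intro v hv
    have h1 : (⟨v, hv⟩ : V) ∈ W.subgroupOf V := by
      rw [hW]
      exact Subgroup.mem_top _
    exact Subgroup.mem_subgroupOf.1 h1)
  subst hWV'
  have hTN : Tg W γ ≤ Subgroup.normalizer (W : Set G) := tg_le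
  obtain ⟨b, hZ, hSt⟩ := sta ℓ M hM G e W γ hL
  have hlc : ∀ v ∈ W, Lc e W γ v (b v) := fun v hv =>
    ⟨(hZ.lb v hv).1.bx, (hZ.lb v hv).1.und, (hZ.lb v hv).2⟩
  obtain ⟨b', hZ', hSt'⟩ := sta ℓ M hM _ c _ _ hLc
  have hlc' : ∀ v ∈ W.subgroupOf (Subgroup.normalizer (W : Set G)), Lc c _ _ v (b' v) :=
    fun v hv => ⟨(hZ'.lb v hv).1.bx, (hZ'.lb v hv).1.und, (hZ'.lb v hv).2⟩
  have k1 := ksm ℓ M hM G e W γ b hZ hSt
  have k2 := ksm ℓ M hM _ c _ _ b' hZ' hSt'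
  obtain ⟨z1, z2⟩ := izx ℓ (FF M) G e W γ hL _ hTN
  have hCN : Subgroup.centralizer (W : Set G) ≤ Subgroup.normalizer (W : Set G) :=
    (T3.H66.cent_le_Tg hL).trans hTN
  obtain ⟨π, hπ, hq⟩ := qrx ℓ (FF M) G e W γ hL _ hCN
  obtain ⟨-, x2⟩ := ltx ℓ (FF M) G e W γ hL _ hCN
  have hcl : L ℓ (W.subgroupOf (Subgroup.normalizer (W : Set G)))
      (Ei (W.subgroupOf (Subgroup.normalizer (W : Set G)))
        (fun t : Subgroup.normalizer (W : Set G) => γ t)) :=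
    hA.iso W _ (Ei W γ) _ π hq hc
  have := Fintype.ofFinite W
  have hK1 : ∀ v : W, ln (fun t : Cu (v : G) => b v t) = lnum (Tg W γ ⊓ Cu (v : G)) γ :=
    fun v => claim G e W γ hL hc v v.2 _ (hlc v v.2)
  have hK2 : ∀ v : W, ln (fun t : Cu ((π v : W.subgroupOf (Subgroup.normalizer (W : Set G))) :
          Subgroup.normalizer (W : Set G)) => b' ((π v : W.subgroupOf _) :
          Subgroup.normalizer (W : Set G)) t) = lnum (Tg W γ ⊓ Cu (v : G)) γ := by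
    intro v
    rw [claim _ c _ _ hLc hcl _ (π v).2 _ (hlc' _ (π v).2), x2, hπ, inf_eq_left.2 hTN]
  have h3 : iz W W γ * (IrrE M e).ncard = iz W W γ * (IrrE M c).ncard := by
    rw [k1, ← z1, k2, ← finsum_comp_equiv π.toEquiv]
    apply finsum_congr
    intro v
    have h4 : (π.toEquiv v : W.subgroupOf (Subgroup.normalizer (W : Set G))) = π v := rfl
    rw [h4, z2, hπ, hK1, hK2]
  have h5 : 0 < iz W W γ := by
    unfold iz
    exact Nat.pos_of_ne_zero (Subgroup.FiniteIndex.index_ne_zero)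
  exact Nat.eq_of_mul_eq_mul_left h5 h3

end Pool.Agent.PST.GU.H3
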