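import Pool.Agent.PST.StmtsGU
import Pool.Agent.Helper41_AT3.T3A
import Pool.Agent.Helper11_PFD.LEQ

/-!
# PST, block GU, row YMT: the alternating sums of the images
-/

open scoped BigOperators

noncomputable section

namespace Pool.Agent.PST.GU.H3

open Pool.Agent.Helper51_AWC Pool.Agent.Helper79_WRA Pool.Agent.PP Pool.Agent.PP.KF
open Pool.Agent.PP.K9 Pool.Agent.PP.K9.H97 Pool.Agent.PP.H75 Pool.Agent.PP.T3 Pool.Agent.PP.T2
open Pool.Agent.PP.TB (Zd Star iz cz)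
open Pool.Agent.PFD (Ei)
open Pool.Agent.PSS

attribute [local instance] Ideal.Quotient.field

theorem ncard_E {ℓ : ℕ} [Fact ℓ.Prime] {M : Ideal (integralClosure ℤ ℂ)} [M.IsMaximal]
    (hM : (ℓ : integralClosure ℤ ℂ) ∈ M) {G : Type} [Group G] [Finite G] {e : G → FF M}
    {V : Subgroup G} {γ : G → FF M} (hL : Ld ℓ e V γ) (lke : PFD.LkeStmt) (inx : K9.InxStmt) :
    ¬ ℓ ∣ Nat.card (Ei V γ) := by
  obtain ⟨l1, -⟩ := lke ℓ (FF M) G e V γ hL
  have hix : ¬ ℓ ∣ ix V γ :=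
    inx ℓ M hM G e hL.blk V hL.tp hL.ab γ hL.gam.supp hL.gam.blk hL.und
  have hiz : iz V V γ = ix V γ := by
    unfold iz ix
    rw [inf_eq_left.2 (T3.H66.cent_le_Tg hL)]
  rw [← l1, hiz]
  exact hix

theorem ymt (yad : PFD.YadStmt) (qrq : QrqStmt) (lke : PFD.LkeStmt) (inx : K9.InxStmt) :
    YmtStmt := by
  intro L hAdm hY ℓ hℓ M _ hM G _ _ e V γ hL hc A _ _ p hp hK hKV
  have hF : GoodF ℓ (FF M) := H50.fld ℓ Fact.out M hM
  have hA := hAdm ℓ hℓ.out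
  have h1 := yad ℓ (FF M) hF A A (MonoidHom.id A) (fun x => ⟨x, rfl⟩) (push p e)
    (push_isIdem hp hL.blk.1) ?_
  · rw [push_id] at h1
    exact h1
  intro f hf hfe
  rw [push_id]
  obtain ⟨γ', hL', π, hπ, hq⟩ := qrq ℓ M hM G e V γ hL p.ker hK inferInstance A p hp rfl f hf hfe
  have hne : V.map p ≠ ⊥ := by
    intro h
    apply hKV
    refine le_antisymm hK ?_
    intro x hx
    rw [MonoidHom.mem_ker]
    have h2 : p x ∈ V.map p := Subgroup.mem_map_of_mem p hx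
    rw [h] at h2
    exact Subgroup.mem_bot.1 h2
  refine hY ℓ M hM A f (V.map p) γ' hL' hne ?_
  exact hA.quo V (V.map p) (Ei V γ) _ π hL.tp.pg (ncard_E hM hL lke inx)
    (fun a c => Subtype.ext (hL.ab _ a.2 _ c.2)) hq hc (Subgroup.ne_bot_iff_exists_ne_one.1 hne)

end Pool.Agent.PST.GU.H3
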