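import Pool.Agent.Helper66_PSS.AsmG
import Pool.Agent.Helper11_PSS.LenA
import Pool.Agent.PSS.AllS6
import Pool.Agent.ATW.AsmT
import Pool.Agent.Helper98_ASE.Asm
import Pool.Agent.Helper98_AT3.Asm3
import Pool.Agent.Helper23_PST.YKR
import Pool.Agent.Helper10_PST.ADR
import Pool.Agent.Helper3_PST.YMT
import Pool.Agent.Helper3_PST.LET
import Pool.Agent.Helper3_PST.STT
import Pool.Agent.Helper41_PST.STR
import Pool.Agent.Helper41_PST.YUM
import Pool.Agent.Helper1_PST.CYM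
import Pool.Agent.Helper62_PST.ADV
import Pool.Agent.Helper20_PST.FVS
import Pool.Agent.Helper68_PST.K3R
import Pool.Agent.Helper68_PST.RSQ
import Pool.Agent.Helper68_PST.CLU
import Pool.Agent.Helper3_PST.FNK

/-!
# Squad PST, block GU: assembly of the group level

`fvs_of`: the final theorem for the union of (A) + (S) and (R), from the input of the algebras.
-/

noncomputable section

namespace Pool.Agent.PST.GU.H3

open Pool.Agent.PP Pool.Agent.PSS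

theorem adr_ : AdrStmt := GU.H10.adr

theorem ykr_ : YkrStmt := GU.H23.ykr (fun ℓ _ => TW.tt_ ℓ) SE.s2f_ T3.pos_

theorem ymt_ : YmtStmt := ymt PFD.H64.yad PSS.H66.qrq_ PFD.H6.lke K9.H34.inx

theorem let__ : LetStmt :=
  let_ H33.qrx H21.qrj PFD.chr_ PFD.H64.yad PFD.H94b.bnr T3.lcj_ K9.H75.lbr

theorem stt_ : SttStmt :=
  stt H33.qrx H63.frt H24.ltx H60.izx PFD.ksm_ T3.lsb_ TW.sta_

/-- rank at most two, the numbers of the ordinary characters -/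
theorem sto_kf : StoFor (Kf LR) := stt_ LR adr_ (let__ LR adr_ (ymt_ LR adr_ ykr_))

/-- theorem (R), the numbers of the ordinary characters -/
theorem sto_k3 (atr : AtgStmt BR.Rtp) (L : Kt) : StoFor (K3 L) :=
  GU.H41.str GU.H68.k3r AllS6.stogen_ atr L

theorem sto_ku (atr : AtgStmt BR.Rtp) (K : Kl) (h : StoFor K) : StoFor (KU K LR) := by
  intro ℓ hℓ M _ hM G _ _ e V γ hL W hW hK c hc
  rcases hK with hK | hK | hK
  · exact h ℓ M hM G e V γ hL W hW hK c hc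
  · exact sto_kf ℓ M hM G e V γ hL W hW hK c hc
  · exact sto_k3 atr LR ℓ M hM G e V γ hL W hW hK c hc

theorem adv_ : AdvStmt :=
  GU.H62.adv (GU.H68.sui GU.H41.yum (GU.H1.cym GU.H41.yum))
    (GU.H68.suq GU.H41.yum (GU.H1.cym GU.H41.yum))

theorem adm_ku (K : Kl) (h : ∀ ℓ : ℕ, ℓ.Prime → Adm ℓ K) : ∀ ℓ : ℕ, ℓ.Prime →
    Adm ℓ (KU K LR) := fun ℓ hℓ => adv_ K LR ℓ hℓ (h ℓ hℓ) (adr_ ℓ hℓ)

theorem len_ku (atr : AtgStmt BR.Rtp) (K : Kl) (h : ∀ ℓ : ℕ, ℓ.Prime → Adm ℓ K)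
    (hs : StoFor K) : LenFor (KU K LR) :=
  PSS.H11.len_ (KU K LR) (adm_ku K h) (sto_ku atr K hs)

theorem mnn_ku (atr : AtgStmt BR.Rtp) (K : Kl) (h : ∀ ℓ : ℕ, ℓ.Prime → Adm ℓ K)
    (hs : StoFor K) : MnnFor (KU K LR) :=
  PSS.H66.mnn_ (KU K LR) (adm_ku K h) (len_ku atr K h hs)

theorem fnk_ : FnkStmt := fnk T3.flt_ T3.psg_

theorem fvs_of (atr : AtgStmt BR.Rtp) (sto : StoStmt) : FvsStmt :=
  GU.H20.fvs fnk_ (GU.H68.clu PSS.H66.cln_) PSS.H66.cln_ (mnn_ku atr KS PSS.H66.ads_ sto)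

end Pool.Agent.PST.GU.H3
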