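import Pool.Agent.PST.StmtsGV

/-!
# PST, block GV, row SRQ: the image of a series
-/

noncomputable section

namespace Pool.Agent.PST.GU.H3

open Pool.Agent.PSS

theorem srq : SrqStmt := by
  intro ℓ V V' _ _ E E' π hq U hU hUk
  have hstep : ∀ Q Q' : Subgroup V, π.ker ≤ Q → Sp ℓ E U Q Q' →
      Sp ℓ E' (U.map π) (Q.map π) (Q'.map π) := by
    intro Q Q' hk h
    refine ⟨Subgroup.map_mono h.le, ?_, ?_, ?_⟩
    · rw [Subgroup.relIndex_map_map, sup_eq_left.2 hk, sup_eq_left.2 (hk.trans h.le)]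
      exact h.ix
    · intro a' ha' v' hv'
      obtain ⟨a, ha, haa⟩ := hq.lif a' ha'
      obtain ⟨v, hv, rfl⟩ := Subgroup.mem_map.1 hv'
      rw [← haa]
      exact Subgroup.mem_map_of_mem π (h.st a ha v hv)
    · intro a' ha' hfix u' hu' hu1 hau x' hx'
      obtain ⟨a, ha, haa⟩ := hq.lif a' ha'
      obtain ⟨u, hu, rfl⟩ := Subgroup.mem_map.1 hu'
      obtain ⟨x, hx, rfl⟩ := Subgroup.mem_map.1 hx'
      have h1 : ∀ v ∈ Q', a v * v⁻¹ ∈ Q := by
        intro v hv
        have h2 := hfix (π v) (Subgroup.mem_map_of_mem π hv)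
        rw [← haa, ← map_inv, ← map_mul] at h2
        obtain ⟨q, hq1, hq2⟩ := Subgroup.mem_map.1 h2
        have h3 : q⁻¹ * (a v * v⁻¹) ∈ π.ker := by
          rw [MonoidHom.mem_ker, map_mul, map_inv, hq2, inv_mul_cancel]
        have h4 := Q.mul_mem hq1 (hk h3)
        rwa [mul_inv_cancel_left] at h4
      have h5 : a u = u := by
        have h6 : a u * u⁻¹ ∈ U ⊓ π.ker := by
          refine Subgroup.mem_inf.2 ⟨U.mul_mem (hU a ha u hu) (U.inv_mem hu), ?_⟩
          rw [MonoidHom.mem_ker, map_mul, map_inv, haa, hau, mul_inv_cancel]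
        rw [hUk, Subgroup.mem_bot] at h6
        exact mul_inv_eq_one.1 h6
      rw [← haa, h.fr a ha h1 u hu (fun h => hu1 (by rw [h, map_one])) h5 x hx]
  refine ⟨hstep, ?_⟩
  intro Q P hk h
  unfold Sr at h ⊢
  revert hk
  induction h using Relation.ReflTransGen.head_induction_on with
  | refl =>
    intro _
    exact Relation.ReflTransGen.refl
  | head h1 h2 ih =>
    intro hk
    exact Relation.ReflTransGen.head (hstep _ _ hk h1) (ih (hk.trans h1.le))

end Pool.Agent.PST.GU.H3
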