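import Pool.Agent.PST.StmtsGV
import Pool.Agent.Helper49_PSS.TWN

/-!
# PST, block GV, row SRY: the series of a cyclic factor
-/

noncomputable section

namespace Pool.Agent.PST.GU.H3

open Pool.Agent.PSS

theorem sry : SryStmt := by
  intro ℓ V _ _ E U C Y hl hp hE hC
  have hf : Fact ℓ.Prime := ⟨hl⟩
  suffices hmain : ∀ n : ℕ, ∀ Y : Subgroup V, Nat.card Y = n → (∀ a ∈ E, ∀ v ∈ Y, a v ∈ Y) →
      (∃ y ∈ Y, ∀ x ∈ Y, ∃ k : ℤ, x = y ^ k) → C ⊓ Y = ⊥ →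
      (Y ≠ ⊥ → ∀ a ∈ E, (∀ y ∈ Y, a y = y) → ∀ u ∈ U, u ≠ 1 → a u = u → ∀ x ∈ U, a x = x) →
      Sr ℓ E U C (C ⊔ Y) from hmain _ Y rfl
  intro n
  induction n using Nat.strong_induction_on with
  | _ n ih =>
  intro Y hn hY hcyc hCY hfr
  by_cases hY0 : Y = ⊥
  · rw [hY0, sup_bot_eq]
    exact Relation.ReflTransGen.refl
  obtain ⟨y, hy, hgen⟩ := hcyc
  have hYz : Y = Subgroup.zpowers y := by
    apply le_antisymm
    · intro x hx
      obtain ⟨k, rfl⟩ := hgen x hx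
      exact Subgroup.zpow_mem_zpowers y k
    · rw [Subgroup.zpowers_le]
      exact hy
  have hy1 : y ≠ 1 := by
    rintro rfl
    apply hY0
    rw [hYz, Subgroup.zpowers_one_eq_bot]
  obtain ⟨r, hr⟩ := IsPGroup.iff_orderOf.1 hp y
  have hr0 : r ≠ 0 := by
    rintro rfl
    rw [pow_zero, orderOf_eq_one_iff] at hr
    exact hy1 hr
  obtain ⟨s, rfl⟩ : ∃ s, r = s + 1 := ⟨r - 1, by omega⟩
  -- the element of order `ℓ`
  have hz1 : y ^ ℓ ^ s ≠ 1 := by
    intro h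
    have h1 := orderOf_dvd_of_pow_eq_one h
    rw [hr] at h1
    exact absurd ((Nat.pow_dvd_pow_iff_le_right hl.one_lt).1 h1) (by omega)
  obtain ⟨Y₁, hY₁⟩ : ∃ Y₁ : Subgroup V, Y₁ = Subgroup.zpowers (y ^ ℓ) := ⟨_, rfl⟩
  have hle : Y₁ ≤ Y := by
    rw [hY₁, Subgroup.zpowers_le]
    exact Y.pow_mem hy ℓ
  have key : ∀ a ∈ E, a y * y⁻¹ ∈ Y₁ → a y = y := by
    intro a ha h
    obtain ⟨k, hk⟩ := hgen (a y) (hY a ha y hy)
    rw [hY₁] at h
    obtain ⟨m, hm⟩ := Subgroup.mem_zpowers_iff.1 h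
    refine H49.fix_cyc hl hp hE ha hk (u := y ^ ℓ ^ s) (j := ((ℓ ^ s : ℕ) : ℤ))
      (zpow_natCast y _).symm hz1 ?_
    have h1 : a y = (y ^ ℓ) ^ m * y := by rw [hm, inv_mul_cancel_right]
    have h2 : ((y ^ ℓ) ^ m) ^ ℓ ^ s = 1 := by
      rw [← zpow_natCast, ← zpow_mul, mul_comm, zpow_mul, zpow_natCast, ← pow_mul, ← pow_succ',
        ← hr, pow_orderOf_eq_one, one_zpow]
    rw [map_pow, h1, mul_pow, h2, one_mul]
  have hst1 : ∀ a ∈ E, ∀ v ∈ Y₁, a v ∈ Y₁ := by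
    intro a ha v hv
    rw [hY₁] at hv ⊢
    obtain ⟨m, rfl⟩ := Subgroup.mem_zpowers_iff.1 hv
    obtain ⟨k, hk⟩ := hgen (a y) (hY a ha y hy)
    rw [map_zpow, map_pow, hk]
    refine Subgroup.zpow_mem _ ?_ m
    have h1 : (y ^ k) ^ ℓ = (y ^ ℓ) ^ k := by
      rw [← zpow_natCast, ← zpow_natCast, ← zpow_mul, ← zpow_mul, mul_comm]
    rw [h1]
    exact Subgroup.zpow_mem_zpowers _ k
  have hcY : Nat.card Y = ℓ ^ (s + 1) := by
    rw [hYz, Nat.card_zpowers, hr]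
  have hcY1 : Nat.card Y₁ = ℓ ^ s := by
    rw [hY₁, Nat.card_zpowers, orderOf_pow' y hl.ne_zero, hr,
      Nat.gcd_eq_right (dvd_pow_self ℓ (Nat.succ_ne_zero s)), pow_succ, Nat.mul_div_cancel _ hl.pos]
  have hCY1 : C ⊓ Y₁ = ⊥ := by
    rw [eq_bot_iff, ← hCY]
    exact inf_le_inf_left _ hle
  have ih1 := ih (Nat.card Y₁) (by
      rw [← hn, hcY, hcY1]
      exact Nat.pow_lt_pow_right hl.one_lt (Nat.lt_succ_self s)) Y₁ rfl hst1
    ⟨y ^ ℓ, by rw [hY₁]; exact Subgroup.mem_zpowers _, fun x hx => by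
      rw [hY₁] at hx
      obtain ⟨k, hk⟩ := Subgroup.mem_zpowers_iff.1 hx
      exact ⟨k, hk.symm⟩⟩ hCY1 (by
      intro hne a ha hfix
      apply hfr hY0 a ha
      have h1 : a y = y := by
        obtain ⟨k, hk⟩ := hgen (a y) (hY a ha y hy)
        refine H49.fix_cyc hl hp hE ha hk (u := y ^ ℓ) (j := (ℓ : ℤ))
          (zpow_natCast y _).symm ?_ (hfix _ (by rw [hY₁]; exact Subgroup.mem_zpowers _))
        intro h
        apply hne
        rw [hY₁, h, Subgroup.zpowers_one_eq_bot]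
      intro x hx
      obtain ⟨k, rfl⟩ := hgen x hx
      rw [map_zpow, h1])
  refine Relation.ReflTransGen.tail ih1 ⟨sup_le_sup_left hle C, ?_, ?_, ?_⟩
  · have h1 : C ⊔ Y = Y ⊔ (C ⊔ Y₁) := by
      apply le_antisymm
      · exact sup_le (le_sup_of_le_right le_sup_left) le_sup_left
      · exact sup_le le_sup_right (sup_le le_sup_left (hle.trans le_sup_right))
    have h2 : (C ⊔ Y₁) ⊓ Y = Y₁ := by
      apply le_antisymm
      · intro x hx
        obtain ⟨hx1, hx2⟩ := Subgroup.mem_inf.1 hx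
        obtain ⟨c, hc, z, hz, rfl⟩ := Subgroup.mem_sup.1 hx1
        have h3 : c ∈ C ⊓ Y := by
          refine Subgroup.mem_inf.2 ⟨hc, ?_⟩
          have h4 := Y.mul_mem hx2 (Y.inv_mem (hle hz))
          rwa [mul_inv_cancel_right] at h4
        rw [hCY, Subgroup.mem_bot] at h3
        rw [h3, one_mul]
        exact hz
      · exact le_inf le_sup_right hle
    rw [h1, Subgroup.relIndex_sup_right, ← Subgroup.inf_relIndex_right, h2]
    have h5 := Subgroup.relIndex_mul_relIndex ⊥ Y₁ Y bot_le hle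
    rw [Subgroup.relIndex_bot_left, Subgroup.relIndex_bot_left, hcY, hcY1, pow_succ] at h5
    exact Nat.eq_of_mul_eq_mul_left (pow_pos hl.pos s) h5
  · intro a ha v hv
    obtain ⟨c, hc, z, hz, rfl⟩ := Subgroup.mem_sup.1 hv
    rw [map_mul]
    exact Subgroup.mul_mem_sup (hC a ha c hc) (hY a ha z hz)
  · intro a ha hfix
    apply hfr hY0 a ha
    have h1 : a y = y := by
      apply key a ha
      have h2 := hfix y (Subgroup.mem_sup_right hy)
      obtain ⟨c, hc, z, hz, hcz⟩ := Subgroup.mem_sup.1 h2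
      have h3 : c ∈ C ⊓ Y := by
        refine Subgroup.mem_inf.2 ⟨hc, ?_⟩
        have h4 : c = a y * y⁻¹ * z⁻¹ := by rw [← hcz, mul_inv_cancel_right]
        rw [h4]
        exact Y.mul_mem (Y.mul_mem (hY a ha y hy) (Y.inv_mem hy)) (Y.inv_mem (hle hz))
      rw [hCY, Subgroup.mem_bot] at h3
      rw [h3, one_mul] at hcz
      rw [← hcz]
      exact hz
    intro x hx
    obtain ⟨k, rfl⟩ := hgen x hx
    rw [map_zpow, h1]

end Pool.Agent.PST.GU.H3
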