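import Pool.Agent.PST.StmtsGV
import Pool.Agent.Helper41_PST.STR

/-!
# Squad PST, block GV, row STV: the input of the group level for the class `K4 L`
-/

open scoped BigOperators

noncomputable section

namespace Pool.Agent.PST.GU.H3

open Pool.Agent.PSS

theorem stv (k4r : K4rStmt) (stogen : GU.H41.StogenStmt) : StvStmt := by
  intro hatg L
  have h : StoFor (fun ℓ V _ E W => ℓ.Prime ∧ K4 L ℓ V E W) := by
    refine stogen Rt4 _ ?_ ?_
    · intro ℓ V _ _ E W hp hE hK
      exact k4r L ℓ V E W hK.1 hp hE hK.2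
    · intro ℓ hℓ F V E A B _ _ _ _ _ _ _ _ _ _ _ φ α W hp hE hR hA hB
      obtain ⟨n, T, ψ, hWT, hst, hc, hr, hR⟩ := hR
      have hcard : Nat.card W = ℓ := by
        have h1 : (Nat.card (W.subgroupOf T)).Prime := hR.1
        rw [Nat.card_congr (Subgroup.subgroupOfEquivOfLe hWT).toEquiv] at h1
        obtain ⟨m, hm⟩ := IsPGroup.iff_card.1 (hp.to_subgroup W)
        rw [hm] at h1 ⊢
        rw [h1.eq_one_of_pow, pow_one]
      rw [hcard] at hc
      exact hatg n ℓ F V E A B φ α T W ψ hp hE hWT hst hc hr hR hA hB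
  intro ℓ hℓ M _ hM G _ _ e V γ hL W hW hK c hc
  exact h ℓ M hM G e V γ hL W hW ⟨hℓ.out, hK⟩ c hc

end Pool.Agent.PST.GU.H3
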