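import Pool.Agent.PST.AllGS
import Pool.Agent.Helper3_PST.AsmU
import Pool.Agent.Helper3_PST.AsmR
import Pool.Agent.Helper3_PST.SRQ
import Pool.Agent.Helper3_PST.SRY
import Pool.Agent.Helper3_PST.STV
import Pool.Agent.Helper5_PST.AGQ
import Pool.Agent.Helper69_PST.RGV
import Pool.Agent.Helper62_PST.ECG
import Pool.Agent.Helper91_PST.KNH
import Pool.Agent.Helper91_PST.K4R
import Pool.Agent.Helper94_PST.SVI
import Pool.Agent.Helper92_PST.SVQ
import Pool.Agent.Helper39_PST.ADW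
import Pool.Agent.Helper49_PST.FVX

/-!
# Squad PST, block GV: assembly

`fvx_of`: the final theorem for the union of (S++) and (R), from the step `StqStmt`.
-/

noncomputable section

namespace Pool.Agent.PST.GU.H3

open Pool.Agent.PP Pool.Agent.PSS

theorem agr_of (stq : StqStmt) : AgqStmt BR.Rtp :=
  GU.H5.agq BR.Rtp BR.H21.rtv PSS.All.stp stq bsr_

theorem k4r_ : K4rStmt := GU.H91.k4r (GU.H69.rgv GS.rea_) GU.H62.ecg GU.H91.knh

/-- theorem (R), the numbers of the ordinary characters -/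
theorem sto_k4 (stq : StqStmt) (L : Kt) : StoFor (K4 L) := stv k4r_ AllS6.stogen_ (agr_of stq) L

theorem sto_kv (stq : StqStmt) (K : Kl) (h : StoFor K) : StoFor (KV K LR) := by
  intro ℓ hℓ M _ hM G _ _ e V γ hL W hW hK c hc
  rcases hK with hK | hK | hK
  · exact h ℓ M hM G e V γ hL W hW hK c hc
  · exact sto_kf ℓ M hM G e V γ hL W hW hK c hc
  · exact sto_k4 stq LR ℓ M hM G e V γ hL W hW hK c hc

theorem adw_ : AdwStmt := GU.H39.adw (GU.H94.svi srq GU.H68.rsq) (GU.H92.svq srq GU.H68.rsq)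

theorem adm_kv (K : Kl) (h : ∀ ℓ : ℕ, ℓ.Prime → Adm ℓ K) : ∀ ℓ : ℕ, ℓ.Prime →
    Adm ℓ (KV K LR) := fun ℓ hℓ => adw_ K LR ℓ hℓ (h ℓ hℓ) (adr_ ℓ hℓ)

theorem len_kv (stq : StqStmt) (K : Kl) (h : ∀ ℓ : ℕ, ℓ.Prime → Adm ℓ K) (hs : StoFor K) :
    LenFor (KV K LR) := PSS.H11.len_ (KV K LR) (adm_kv K h) (sto_kv stq K hs)

theorem mnn_kv (stq : StqStmt) (K : Kl) (h : ∀ ℓ : ℕ, ℓ.Prime → Adm ℓ K) (hs : StoFor K) :
    MnnFor (KV K LR) := PSS.H66.mnn_ (KV K LR) (adm_kv K h) (len_kv stq K h hs)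

theorem fvx_clv (clv : ClvStmt) (stq : StqStmt) : FvxStmt :=
  GU.H49.fvx fnk_ clv GS.clp_ (mnn_kv stq KP GS.adp_ (GS.stoKP_of stq))

end Pool.Agent.PST.GU.H3
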